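import Pool.Agent.H24.EH.Defs
import Pool.Agent.H10.EH.FA

/-!
# EHP: `PolarLip` and `SmallOn` for the test functions `F_A`, `F_B`
-/

set_option autoImplicit false

open MeasureTheory Set Filter Topology
open scoped Real

noncomputable section

namespace Pool.Agent.H95.EH

open Pool.EH

/-- `F_A` as a function of `r = e^l` -/
def FtA (p r g : ℝ) : ℝ :=
  Real.arcosh ((r / 4 + Real.sqrt ((r / 4 - p * Real.cosh g) ^ 2 + p * (1 - p) * (Real.sinh g) ^ 2)) / p)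

/-- `F_B` as a function of `r = e^l` -/
def FtB (p r g : ℝ) : ℝ :=
  Real.arcosh ((Real.sqrt ((r / 4 - p * Real.cosh g) ^ 2 + p * (1 - p) * (Real.sinh g) ^ 2) +
    Real.cosh g - r / 4) / (1 - p))

theorem FA_eq (p l g : ℝ) : FA p l g = FtA p (Real.exp l) g := rfl

theorem FB_eq (p l g : ℝ) : FB p l g = FtB p (Real.exp l) g := rfl

theorem arg_pos {p : ℝ} (hp : 0 < p) (hp1 : p < 1) (s : ℝ) {g : ℝ} (hg : 0 < g) :
    0 < (s - p * Real.cosh g) ^ 2 + p * (1 - p) * (Real.sinh g) ^ 2 := by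
  have h1 : 0 < Real.sinh g := Real.sinh_pos_iff.2 hg
  have h2 : 0 < 1 - p := by linarith
  positivity

theorem root_sq {p : ℝ} (hp : 0 < p) (hp1 : p < 1) (s g : ℝ) :
    Real.sqrt ((s - p * Real.cosh g) ^ 2 + p * (1 - p) * (Real.sinh g) ^ 2) ^ 2 =
      s ^ 2 - 2 * p * s * Real.cosh g + p * Real.cosh g ^ 2 - p * (1 - p) := by
  rw [Real.sq_sqrt, Real.sinh_sq]
  · ring
  · have h2 : 0 < 1 - p := by linarith
    positivity

theorem one_lt_tA {p : ℝ} (hp : 0 < p) (hp1 : p < 1) {s : ℝ} (hs : 0 ≤ s) {g : ℝ} (hg : 0 < g) :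
    1 < (s + Real.sqrt ((s - p * Real.cosh g) ^ 2 + p * (1 - p) * (Real.sinh g) ^ 2)) / p := by
  rw [lt_div_iff₀ hp, one_mul]
  have hR := Real.sqrt_pos.2 (arg_pos hp hp1 s hg)
  have h1 := root_sq hp hp1 s g
  obtain ⟨R, hRe⟩ : ∃ R, R = Real.sqrt ((s - p * Real.cosh g) ^ 2 +
    p * (1 - p) * (Real.sinh g) ^ 2) := ⟨_, rfl⟩
  rw [← hRe] at hR h1 ⊢
  have hC : 1 < Real.cosh g := Real.one_lt_cosh.2 hg.ne'
  by_cases h : p ≤ s
  · linarith
  · push Not at h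
    have h3 : (p - s) ^ 2 < R ^ 2 := by
      rw [h1]
      have : 0 < p * (Real.cosh g - 1) * (Real.cosh g + 1 - 2 * s) := by
        have : 0 < Real.cosh g + 1 - 2 * s := by linarith
        have h5 : 0 < Real.cosh g - 1 := by linarith
        positivity
      nlinarith
    have h4 : p - s < R := lt_of_pow_lt_pow_left₀ 2 hR.le h3
    linarith

theorem one_lt_tB {p : ℝ} (hp : 0 < p) (hp1 : p < 1) {s : ℝ} (hs : 0 ≤ s) {g : ℝ} (hg : 0 < g) :
    1 < (Real.sqrt ((s - p * Real.cosh g) ^ 2 + p * (1 - p) * (Real.sinh g) ^ 2) +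
      Real.cosh g - s) / (1 - p) := by
  have hq : 0 < 1 - p := by linarith
  rw [lt_div_iff₀ hq, one_mul]
  have hR := Real.sqrt_pos.2 (arg_pos hp hp1 s hg)
  have h1 := root_sq hp hp1 s g
  obtain ⟨R, hRe⟩ : ∃ R, R = Real.sqrt ((s - p * Real.cosh g) ^ 2 +
    p * (1 - p) * (Real.sinh g) ^ 2) := ⟨_, rfl⟩
  rw [← hRe] at hR h1 ⊢
  have hC : 1 < Real.cosh g := Real.one_lt_cosh.2 hg.ne'
  by_cases h : 1 - p ≤ Real.cosh g - s
  · linarith
  · push Not at h
    have h3 : (1 - p - Real.cosh g + s) ^ 2 < R ^ 2 := by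
      rw [h1]
      have : 0 < (1 - p) * (Real.cosh g - 1) * (2 * s + 1 - Real.cosh g) := by
        have : 0 < 2 * s + 1 - Real.cosh g := by linarith
        have h5 : 0 < Real.cosh g - 1 := by linarith
        positivity
      nlinarith
    have h4 : 1 - p - Real.cosh g + s < R := lt_of_pow_lt_pow_left₀ 2 hR.le h3
    linarith

theorem lip_of_contDiffAt {f : ℝ → ℝ} {R : ℝ} (h : ∀ r ∈ Icc (0 : ℝ) R, ContDiffAt ℝ 1 f r) :
    ∃ K : NNReal, LipschitzOnWith K f (Icc 0 R) := by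
  have hl : LocallyLipschitzOn (Icc 0 R) f := by
    intro r hr
    obtain ⟨K, t, ht, hK⟩ := (h r hr).exists_lipschitzOnWith
    exact ⟨K, t, mem_nhdsWithin_of_mem_nhds ht, hK⟩
  exact hl.exists_lipschitzOnWith_of_compact isCompact_Icc

theorem polarLip_A {p : ℝ} (hp : 0 < p) (hp1 : p < 1) :
    Pool.Agent.H24.EH.PolarLip (FA p) := by
  refine ⟨FtA p, fun l g => rfl, fun g hg R hR => ?_⟩
  refine lip_of_contDiffAt fun r hr => ?_
  have hs : (0 : ℝ) ≤ r / 4 := by have := hr.1; positivity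
  have h1 := one_lt_tA hp hp1 hs hg
  have h0 := arg_pos hp hp1 (r / 4) hg
  unfold FtA
  refine (Real.contDiffAt_arcosh h1).comp r (f := fun r => (r / 4 + Real.sqrt ((r / 4 -
    p * Real.cosh g) ^ 2 + p * (1 - p) * (Real.sinh g) ^ 2)) / p) ?_
  refine ContDiffAt.div_const ?_ p
  refine (contDiffAt_id.div_const 4).add (ContDiffAt.sqrt ?_ h0.ne')
  fun_prop

theorem polarLip_B {p : ℝ} (hp : 0 < p) (hp1 : p < 1) :
    Pool.Agent.H24.EH.PolarLip (FB p) := by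
  refine ⟨FtB p, fun l g => rfl, fun g hg R hR => ?_⟩
  refine lip_of_contDiffAt fun r hr => ?_
  have hs : (0 : ℝ) ≤ r / 4 := by have := hr.1; positivity
  have h1 := one_lt_tB hp hp1 hs hg
  have h0 := arg_pos hp hp1 (r / 4) hg
  unfold FtB
  refine (Real.contDiffAt_arcosh h1).comp r (f := fun r => (Real.sqrt ((r / 4 -
    p * Real.cosh g) ^ 2 + p * (1 - p) * (Real.sinh g) ^ 2) + Real.cosh g - r / 4) / (1 - p)) ?_
  refine ContDiffAt.div_const ?_ (1 - p)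
  have hsq : ContDiffAt ℝ 1 (fun r : ℝ => Real.sqrt ((r / 4 - p * Real.cosh g) ^ 2 +
      p * (1 - p) * (Real.sinh g) ^ 2)) r := by
    refine ContDiffAt.sqrt ?_ h0.ne'
    fun_prop
  exact (hsq.add contDiffAt_const).sub (contDiffAt_id.div_const 4)

/-! ## `SmallOn` -/

theorem le_of_sq {a b : ℝ} (h : a ^ 2 ≤ b ^ 2) (hb : 0 ≤ b) : a ≤ b :=
  (le_abs_self a).trans (abs_le_of_sq_le_sq h hb)

theorem sinh_le_two {g : ℝ} (hg : 0 < g) (hg1 : g ≤ 1) : Real.sinh g ≤ 2 * g := by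
  have h1 := Real.abs_exp_sub_one_sub_id_le (x := g) (by rw [abs_of_pos hg]; exact hg1)
  have h2 := Real.abs_exp_sub_one_sub_id_le (x := -g) (by rw [abs_neg, abs_of_pos hg]; exact hg1)
  have h3 := (abs_le.1 h1).2
  have h4 := (abs_le.1 h2).1
  rw [Real.sinh_eq]
  nlinarith

theorem sq_div_two_le (F : ℝ) (hF : 0 ≤ F) : F ^ 2 ≤ 2 * (Real.cosh F - 1) := by
  have h1 : Real.cosh F = 2 * Real.sinh (F / 2) ^ 2 + 1 := by
    have h := Real.cosh_two_mul (F / 2)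
    have h2 := Real.cosh_sq (F / 2)
    have h3 : 2 * (F / 2) = F := by ring
    rw [h3] at h
    rw [h]
    linarith
  have h2 : F / 2 ≤ Real.sinh (F / 2) := Real.self_le_sinh_iff.2 (by linarith)
  have h3 : 0 ≤ F / 2 := by linarith
  rw [h1]
  nlinarith

theorem abs_lt_RR {p : ℝ} (hp : 0 < p) (hp1 : p < 1) (l : ℝ) {g : ℝ} (hg : 0 < g) :
    |rh l - p * Real.cosh g| < RR p l g := by
  have h1 := RR_pos hp hp1 l hg
  have h2 := RR_sq hp hp1 l g
  have h3 : 0 < Real.sinh g := Real.sinh_pos_iff.2 hg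
  have h4 : 0 < p * (1 - p) * Real.sinh g ^ 2 := by
    have : 0 < 1 - p := by linarith
    positivity
  rw [← Real.sqrt_sq h1.le, ← Real.sqrt_sq_eq_abs]
  exact Real.sqrt_lt_sqrt (sq_nonneg _) (by rw [h2]; linarith)

theorem cosh_lt_A {p : ℝ} (hp : 0 < p) (hp1 : p < 1) (l : ℝ) {g : ℝ} (hg : 0 < g) :
    Real.cosh g < Real.cosh (FA p l g) := by
  rw [cosh_FA hp hp1 l hg, lt_div_iff₀ hp]
  have := (abs_lt.1 (abs_lt_RR hp hp1 l hg)).1
  linarith

theorem cosh_lt_B {p : ℝ} (hp : 0 < p) (hp1 : p < 1) (l : ℝ) {g : ℝ} (hg : 0 < g) :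
    Real.cosh g < Real.cosh (FB p l g) := by
  have hq : 0 < 1 - p := by linarith
  rw [cosh_FB hp hp1 l hg, lt_div_iff₀ hq]
  have := (abs_lt.1 (abs_lt_RR hp hp1 l hg)).2
  linarith

/-- from `cosh F - 1 ≤ K S²`: the bounds -/
theorem small_core {g F K ρ R δ : ℝ} (hg : 0 < g) (hg1 : g ≤ 1) (hF : 0 < F) (hK : 1 ≤ K) (hρ : 0 < ρ)
    (hδ : 0 < δ) (hR : δ ≤ R) (hC : Real.cosh g < Real.cosh F)
    (h : Real.cosh F - 1 ≤ K * Real.sinh g ^ 2) :
    F ≤ (4 * K + 2 * K / δ) * g ∧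
      ρ * (Real.cosh F - Real.cosh g) / (R * Real.sinh F) ≤ (4 * K + 2 * K / δ) * ρ * g := by
  have hS := sinh_le_two hg hg1
  have hS0 : 0 < Real.sinh g := Real.sinh_pos_iff.2 hg
  have hgF : g < F := by
    have := Real.cosh_lt_cosh.1 hC
    rwa [abs_of_pos hg, abs_of_pos hF] at this
  have hSF : Real.sinh g < Real.sinh F := Real.sinh_lt_sinh.2 hgF
  have hK2 : 0 < 2 * K / δ := by positivity
  constructor
  · have h1 := sq_div_two_le F hF.le
    have h2 : Real.sinh g ^ 2 ≤ (2 * g) ^ 2 := by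
      exact pow_le_pow_left₀ hS0.le hS 2
    have h3 : F ^ 2 ≤ (4 * K * g) ^ 2 := by
      have h5 : F ^ 2 ≤ 2 * (K * (2 * g) ^ 2) := by
        have : K * Real.sinh g ^ 2 ≤ K * (2 * g) ^ 2 := mul_le_mul_of_nonneg_left h2 (by linarith)
        linarith
      have h6 : 2 * (K * (2 * g) ^ 2) ≤ (4 * K * g) ^ 2 := by
        have : 8 * K * g ^ 2 ≤ 16 * K ^ 2 * g ^ 2 := by
          have h7 : 8 * K ≤ 16 * K ^ 2 := by nlinarith
          exact mul_le_mul_of_nonneg_right h7 (sq_nonneg g)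
        linarith
      exact h5.trans h6
    have h4 : F ≤ 4 * K * g := le_of_sq h3 (by positivity)
    have h5 : 0 ≤ 2 * K / δ * g := by positivity
    nlinarith
  · have hC1 : 1 < Real.cosh g := Real.one_lt_cosh.2 hg.ne'
    have hR0 : 0 < R := lt_of_lt_of_le hδ hR
    have hD : 0 < R * Real.sinh F := mul_pos hR0 (hS0.trans hSF)
    rw [div_le_iff₀ hD]
    have h1 : Real.cosh F - Real.cosh g ≤ K * Real.sinh g ^ 2 := by linarith
    have h2 : δ * Real.sinh g ≤ R * Real.sinh F := by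
      apply mul_le_mul hR hSF.le hS0.le hR0.le
    have h3 : ρ * (Real.cosh F - Real.cosh g) ≤ ρ * (K * Real.sinh g ^ 2) :=
      mul_le_mul_of_nonneg_left h1 hρ.le
    have h4 : ρ * (K * Real.sinh g ^ 2) ≤ 2 * K / δ * ρ * g * (δ * Real.sinh g) := by
      have h5 : 2 * K / δ * ρ * g * (δ * Real.sinh g) = ρ * (K * ((2 * g) * Real.sinh g)) := by
        field_simp
      rw [h5]
      have h6 : Real.sinh g ^ 2 ≤ 2 * g * Real.sinh g := by nlinarith
      exact mul_le_mul_of_nonneg_left (mul_le_mul_of_nonneg_left h6 (by linarith)) hρ.le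
    have h5 : 2 * K / δ * ρ * g * (δ * Real.sinh g) ≤
        (4 * K + 2 * K / δ) * ρ * g * (R * Real.sinh F) := by
      apply mul_le_mul _ h2 (by positivity) (by positivity)
      have h6 : 0 ≤ 4 * K * (ρ * g) := by positivity
      nlinarith
    linarith

theorem rsq_diff {p : ℝ} (hp : 0 < p) (hp1 : p < 1) (l : ℝ) (g : ℝ) :
    RR p l g ^ 2 - (p - rh l) ^ 2 = p * (Real.cosh g - 1) * (Real.cosh g + 1 - 2 * rh l) := by
  rw [RR_sq' hp hp1 l g]
  ring

theorem smallOn_A {p : ℝ} (hp : 0 < p) (hp1 : p < 1) (δ : ℝ) (hδ : 0 < δ) :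
    Pool.Agent.H24.EH.SmallOn (fun l => Pool.Agent.H24.EH.rho l ≤ p - δ) (FA p) (FAl p) := by
  refine ⟨4 * (1 + 1 / δ) + 2 * (1 + 1 / δ) / δ, fun l g hl hg hg1 => ?_⟩
  change rh l ≤ p - δ at hl
  change |FA p l g| ≤ _ ∧ |FAl p l g| ≤ (4 * (1 + 1 / δ) + 2 * (1 + 1 / δ) / δ) * rh l * g
  have hR := RR_pos hp hp1 l hg
  have hr := rh_pos l
  have hC : 1 < Real.cosh g := Real.one_lt_cosh.2 hg.ne'
  have hd := rsq_diff hp hp1 l g
  have hS := Real.sinh_sq g
  have h1 : p - rh l ≤ RR p l g := by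
    refine le_of_sq ?_ hR.le
    have : 0 ≤ p * (Real.cosh g - 1) * (Real.cosh g + 1 - 2 * rh l) := by
      have h2 : 0 ≤ Real.cosh g + 1 - 2 * rh l := by linarith
      have h3 : 0 ≤ Real.cosh g - 1 := by linarith
      positivity
    linarith
  have hRd : δ ≤ RR p l g := by linarith
  have h2 : (RR p l g - (p - rh l)) * δ ≤ p * Real.sinh g ^ 2 := by
    have h3 : (RR p l g - (p - rh l)) * δ ≤ (RR p l g - (p - rh l)) * (RR p l g + (p - rh l)) :=
      mul_le_mul_of_nonneg_left (by linarith) (by linarith)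
    have h4 : p * (Real.cosh g - 1) * (Real.cosh g + 1 - 2 * rh l) ≤
        p * (Real.cosh g - 1) * (Real.cosh g + 1) :=
      mul_le_mul_of_nonneg_left (by linarith) (mul_nonneg hp.le (by linarith))
    nlinarith
  have h3 : Real.cosh (FA p l g) - 1 ≤ (1 + 1 / δ) * Real.sinh g ^ 2 := by
    have h4 : p * (Real.cosh (FA p l g) - 1) = RR p l g - (p - rh l) := by
      rw [RR_eq_A hp hp1 l hg]; ring
    have h5 : (Real.cosh (FA p l g) - 1) * δ ≤ Real.sinh g ^ 2 := by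
      rw [← h4] at h2
      have : p * ((Real.cosh (FA p l g) - 1) * δ) ≤ p * Real.sinh g ^ 2 := by linarith
      exact le_of_mul_le_mul_left this hp
    have h6 : Real.cosh (FA p l g) - 1 ≤ Real.sinh g ^ 2 / δ := (le_div_iff₀ hδ).2 h5
    have h7 : Real.sinh g ^ 2 / δ = 1 / δ * Real.sinh g ^ 2 := by ring
    nlinarith [sq_nonneg (Real.sinh g)]
  have hK : 1 ≤ 1 + 1 / δ := by
    have : 0 < 1 / δ := by positivity
    linarith
  obtain ⟨ha, hb⟩ := small_core hg hg1 (FA_pos hp hp1 l hg) hK hr hδ hRd (cosh_lt_A hp hp1 l hg) h3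
  have hX := cosh_lt_A hp hp1 l hg
  have hsF := sinh_FA_pos hp hp1 l hg
  refine ⟨by rw [abs_of_pos (FA_pos hp hp1 l hg)]; exact ha, ?_⟩
  rw [abs_of_nonneg]
  · exact hb
  · unfold FAl
    have : 0 < Real.cosh (FA p l g) - Real.cosh g := by linarith
    positivity

theorem smallOn_B {p : ℝ} (hp : 0 < p) (hp1 : p < 1) (δ : ℝ) (hδ : 0 < δ) :
    Pool.Agent.H24.EH.SmallOn
      (fun l => p + δ ≤ Pool.Agent.H24.EH.rho l ∧ Pool.Agent.H24.EH.rho l ≤ 1) (FB p) (FBl p) := by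
  have hq : 0 < 1 - p := by linarith
  refine ⟨4 * (1 + (1 + 1 / δ) / (1 - p)) + 2 * (1 + (1 + 1 / δ) / (1 - p)) / δ,
    fun l g hl hg hg1 => ?_⟩
  change p + δ ≤ rh l ∧ rh l ≤ 1 at hl
  change |FB p l g| ≤ _ ∧ |FBl p l g| ≤
    (4 * (1 + (1 + 1 / δ) / (1 - p)) + 2 * (1 + (1 + 1 / δ) / (1 - p)) / δ) * rh l * g
  obtain ⟨hl1, hl2⟩ := hl
  have hR := RR_pos hp hp1 l hg
  have hr := rh_pos l
  have hC : 1 < Real.cosh g := Real.one_lt_cosh.2 hg.ne'
  have hd := rsq_diff hp hp1 l g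
  have hS := Real.sinh_sq g
  have h1 : rh l - p ≤ RR p l g := by
    refine le_of_sq ?_ hR.le
    have : 0 ≤ p * (Real.cosh g - 1) * (Real.cosh g + 1 - 2 * rh l) := by
      have h2 : 0 ≤ Real.cosh g + 1 - 2 * rh l := by linarith
      have h3 : 0 ≤ Real.cosh g - 1 := by linarith
      positivity
    nlinarith
  have hRd : δ ≤ RR p l g := by linarith
  have h2 : (RR p l g - (rh l - p)) * δ ≤ p * Real.sinh g ^ 2 := by
    have h3 : (RR p l g - (rh l - p)) * δ ≤ (RR p l g - (rh l - p)) * (RR p l g + (rh l - p)) :=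
      mul_le_mul_of_nonneg_left (by linarith) (by linarith)
    have h4 : p * (Real.cosh g - 1) * (Real.cosh g + 1 - 2 * rh l) ≤
        p * (Real.cosh g - 1) * (Real.cosh g + 1) :=
      mul_le_mul_of_nonneg_left (by linarith) (mul_nonneg hp.le (by linarith))
    nlinarith
  have hK0 : 0 < (1 + 1 / δ) / (1 - p) := by positivity
  have h3 : Real.cosh (FB p l g) - 1 ≤ (1 + (1 + 1 / δ) / (1 - p)) * Real.sinh g ^ 2 := by
    have h4 : (1 - p) * (Real.cosh (FB p l g) - 1) =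
        RR p l g - (rh l - p) + (Real.cosh g - 1) := by
      rw [RR_eq_B hp hp1 l hg]; ring
    have h5 : RR p l g - (rh l - p) ≤ Real.sinh g ^ 2 / δ := by
      rw [le_div_iff₀ hδ]
      have : p * Real.sinh g ^ 2 ≤ 1 * Real.sinh g ^ 2 :=
        mul_le_mul_of_nonneg_right hp1.le (sq_nonneg _)
      linarith
    have h6 : Real.cosh g - 1 ≤ Real.sinh g ^ 2 := by nlinarith
    have h7 : (1 - p) * (Real.cosh (FB p l g) - 1) ≤ (1 + 1 / δ) * Real.sinh g ^ 2 := by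
      have h8 : Real.sinh g ^ 2 / δ = 1 / δ * Real.sinh g ^ 2 := by ring
      rw [h4]; linarith
    have h9 : Real.cosh (FB p l g) - 1 ≤ (1 + 1 / δ) * Real.sinh g ^ 2 / (1 - p) := by
      rw [le_div_iff₀ hq]; linarith
    have h10 : (1 + 1 / δ) * Real.sinh g ^ 2 / (1 - p) = (1 + 1 / δ) / (1 - p) * Real.sinh g ^ 2 := by
      ring
    nlinarith [sq_nonneg (Real.sinh g)]
  have hK : 1 ≤ 1 + (1 + 1 / δ) / (1 - p) := by linarith
  obtain ⟨ha, hb⟩ := small_core hg hg1 (FB_pos hp hp1 l hg) hK hr hδ hRd (cosh_lt_B hp hp1 l hg) h3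
  have hX := cosh_lt_B hp hp1 l hg
  have hsF := sinh_FB_pos hp hp1 l hg
  refine ⟨by rw [abs_of_pos (FB_pos hp hp1 l hg)]; exact ha, ?_⟩
  have h11 : FBl p l g = -(rh l * (Real.cosh (FB p l g) - Real.cosh g) /
      (RR p l g * Real.sinh (FB p l g))) := by
    unfold FBl; rw [neg_div]
  rw [h11, abs_neg, abs_of_nonneg]
  · exact hb
  · have : 0 < Real.cosh (FB p l g) - Real.cosh g := by linarith
    positivity

end Pool.Agent.H95.EH
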